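import Pool.Agent.Lib.Z9f173d.HierCx

/-!
# Zero in the spectrum for groups with amenable or hierarchical subgroups of codimension at most 2

Let `π` be the fundamental group of a finite aspherical complex `M`, and let `C_*` be the cellular
chain complex of the universal cover, a resolution of `ℤ` by finitely generated free
`ℤ[π]`-modules.  We prove that `H_i(M; C_r^*(π)) ≠ 0` for some `i ≤ 2` in the following cases:
`dim M ≤ 2`; `π` has an amenable subgroup `Λ` (possibly trivial) with `H^j(π; ℤ[π/Λ]) ≠ 0` for some
`j ≤ 2`; `π` is a Poincaré duality group of dimension `3`; `π` has a subgroup `S` of codimension one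
(`e(π, S) ≥ 2`, for instance `π` splits over `S`) which is amenable, or which has a finite hierarchy
over amenable groups (virtually free groups, surface groups, limit groups, graph manifold groups); `π` has
relative dimension `2`, that is `π` acts on an acyclic complex of dimension `2` with amenable
stabilisers of the faces, amenable or hierarchical stabilisers of the edges, and no finite orbit on the
vertices; nothing is assumed on the stabilisers of the vertices.

Idea of the proof.  Suppose the homology vanishes in degrees `0, 1, 2`.  Then the unreduced
cohomology of `π` with coefficients in every unitary representation weakly contained in the regular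
one vanishes in degrees `≤ 2`; this covers the representations induced from unitary characters of
amenable subgroups.  Let `Q` be the group of circle valued functions on `π/Λ` which are square
summably close to `0`, so that `0 → ℤ[π/Λ] → ℓ²(π/Λ; ℝ) → Q → 0` is exact.  A `1`-cocycle in `Q` is
the coboundary of a circle valued function `u` on `π`, and `exp(2πiu)` is a bounded complex function
whose translates differ from it by square summable functions, in a representation induced from
a character of `Λ`.  By vanishing in degree one it is the sum of a constant and of a square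
summable function; so the cocycle is a coboundary in `Q`, and `H^2(π; ℤ[π/Λ])`, which injects into
`H^2(π; ℓ²(π/Λ)) = 0`, is zero.  So `H^2(π; ℚ[X]) = 0` for the `π`-sets `X` with amenable stabilisers,
and `H^1(π; ℚ[X]) = 0` follows for the hierarchical `π`-sets `X` from the exact sequences
`0 → ℚ[edges] → ℚ[vertices] → ℚ[components] → 0` of forests, and by averaging over finite fibres.  A subset of `X` which is almost invariant
defines a class in `H^1(π; ℚ[X])`; and `H^1(π; k[X₁]) = 0` and `H^2(π; k[X₂]) = 0` imply that
`N → k` splits.
-/

universe u

namespace Pool.Agent.Results.MP_9f173d_gt.AmenableCodimTwo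

open Z9f173d

/-- Let `C` be a resolution of `ℤ` by finitely generated free `ℤ[G]`-modules (for instance the
cellular chain complex of the universal cover of a finite aspherical complex `M` with fundamental
group `G`).  Assume one of:

* `C` has length at most `2` (for instance `dim M ≤ 2`);
* `G` has an amenable subgroup `Λ` with `H^j(G; ℤ[G/Λ]) ≠ 0` for some `j ≤ 2`;
* `G` has an element of infinite order and `H^3(G; ℤ[G])` is infinite cyclic;
* `G` has a subgroup `S` of codimension one such that `G/S` is hierarchical: there is an infinite
  subset `B` of `G/S` with infinite complement such that `gB` and `B` differ by a finite set for all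
  `g`;
* for some commutative torsion-free ring `k` (for instance `ℤ` or `ℚ`) there is an exact sequence
  `0 → k[X₂] → k[X₁] → N → k → 0` of `G`-modules, where `X₁` and `X₂` are `G`-sets with amenable
  stabilisers and `N → k` does not split: no fixed element of `N` is mapped to `1`.  (For instance
  `N = k[X₀]`, the chains of an acyclic complex of dimension `2` on which `G` acts, with amenable
  stabilisers of the edges and of the faces and without finite orbit on the vertices.)
* there is an exact sequence `0 → ℚ[X₂] → ℚ[X₁] → N → ℚ → 0` of `G`-modules, where `X₂` is a `G`-set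
  with amenable stabilisers, `X₁` is a hierarchical `G`-set, and no fixed element of `N` is mapped
  to `1`.

Then `H_i(C_r^*(G) ⊗ C_*) ≠ 0` for some `i ≤ 2`. -/
theorem result {G : Type u} [Group G] (C : FinRes G)
    (h : (∀ i, 2 < i → C.rank i = 0) ∨
      (∃ Λ : Subgroup G, FoelnerAmenable Λ ∧ ∃ j ≤ 2, Nontrivial (C.cohomology (G ⧸ Λ) j)) ∨
      ((∃ g : G, ¬ IsOfFinOrder g) ∧ Nonempty (C.cohomology G 3 ≃+ ℤ)) ∨
      (∃ (S : Subgroup G) (B : Set (G ⧸ S)), Hier G (G ⧸ S) ∧
        (∀ g : G, {x : G ⧸ S | ¬ (g • x ∈ B ↔ x ∈ B)}.Finite) ∧ B.Infinite ∧ Bᶜ.Infinite) ∨
      (∃ (k : Type) (_ : CommRing k) (_ : Module.IsTorsionFree ℤ k) (R : RelRes k G),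
        (∀ x : R.X₁, FoelnerAmenable (MulAction.stabilizer G x)) ∧
        (∀ x : R.X₂, FoelnerAmenable (MulAction.stabilizer G x)) ∧
        ∀ n : R.N, (∀ g : G, g • n = n) → R.ε n ≠ 1) ∨
      (∃ R : RelRes ℚ G, Hier G R.X₁ ∧
        (∀ x : R.X₂, FoelnerAmenable (MulAction.stabilizer G x)) ∧
        ∀ n : R.N, (∀ g : G, g • n = n) → R.ε n ≠ 1)) :
    ∃ i ≤ 2, Nontrivial (C.homology i) :=
  final6 C h

end Pool.Agent.Results.MP_9f173d_gt.AmenableCodimTwo
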