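import Pool.Agent.Lib.P9f173d.Conv

/-!
Nonvanishing of homology with coefficients in the reduced group algebra, for groups
commensurable with the extensions of Coxeter groups that arise in the reflection group method.
-/

namespace Pool.Agent.Results.MP_9f173d_gt.CoxeterExtension

open Pool.Agent.Lib.P9f173d

/-- Let `(W, S)` be a Coxeter system with nonempty generating set indexed by `B`, and let `G` be
a group acting on `B` by diagram automorphisms.  Assume that `G` has a finite free resolution
of the trivial module, that `G` acts freely on the nonempty subsets `T` of `B` that generate a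
finite subgroup of `W`, and that there are finitely many orbits of such subsets.  Let `π` be a
group that is commensurable with the semidirect product of `W` and `G` (a group `Δ` embeds in
both with images of finite index), and let `R` be any finite free resolution of the trivial
module over `ℤ[π]` (for example the cellular chain complex of the universal cover of a finite
aspherical complex with fundamental group `π`).  Let `H = ℓ²(π)` be the Hilbert space with
orthonormal basis `e` indexed by `π`, and let `lam` be the left regular representation, so that
`redAlg lam`, the closure of the image of `ℂ[π]` in the algebra of bounded operators, is the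
reduced group algebra of `π`.  Then the homology of `R` with coefficients in the reduced group
algebra of `π` is nonzero in some degree. -/
theorem result {B W G : Type*} [Group W] [Group G] [MulAction G B] [Nonempty B]
    {M : CoxeterMatrix B} (cs : CoxeterSystem M W) (φ : G →* MulAut W)
    (hφ : ∀ (g : G) (b : B), φ g (cs.simple b) = cs.simple (g • b))
    (F : FinRes G)
    (hfree : ∀ T : Set B, T.Nonempty → Finite (Subgroup.closure (cs.simple '' T)) →
      ∀ g : G, (fun b => g • b) '' T = T → g = 1)
    (hfin : ∃ P : Set (Set B), P.Finite ∧ ∀ T : Set B, T.Nonempty →
      Finite (Subgroup.closure (cs.simple '' T)) → ∃ g : G, (fun b => g • b) '' T ∈ P)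
    {π Δ : Type*} [Group π] [Group Δ]
    (α : Δ →* W ⋊[φ] G) (hα : Function.Injective α) (hα' : α.range.FiniteIndex)
    (β : Δ →* π) (hβ : Function.Injective β) (hβ' : β.range.FiniteIndex)
    (R : FinRes π)
    {H : Type*} [NormedAddCommGroup H] [InnerProductSpace ℂ H] [CompleteSpace H]
    (e : HilbertBasis π ℂ H) (lam : π →* (H →L[ℂ] H)) (hlam : ∀ g h, lam g (e h) = e (g * h)) :
    ∃ i : ℕ, HomologyNonzero R lam i := by
  obtain ⟨i, hi⟩ := main_theorem cs φ hφ F.toFreeRes (fun T hT => hfree T hT.1 hT.2)
    (by
      obtain ⟨P, h1, h2⟩ := hfin
      exact ⟨P, h1, fun T hT => h2 T hT.1 hT.2⟩)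
    R.toFreeRes α hα hα' β hβ hβ' e lam hlam
  exact ⟨i, homologyNonzero_of_nontrivial R lam hi⟩

end Pool.Agent.Results.MP_9f173d_gt.CoxeterExtension
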