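import Pool.Agent.Lib.P9f173dE.Final

/-!
# Zero in the spectrum and thin subgroups of codimension one

Let `G` be a group with a resolution `R` of `ℤ` by finitely generated free `ℤ[G]`-modules, for
instance the cellular chain complex of the universal cover of a finite aspherical complex with
fundamental group `G`.  A group `C` with such a resolution is called thin here if it is amenable or
`H²(C; ℓ²(C)) = 0` (unreduced); free groups and the fundamental groups of closed surfaces are thin.
Let `A` be a `C`-almost invariant subset of `G`, for example the set of the `x` such that
`x⁻¹ v₀` lies on a given side of an edge of a tree whose stabiliser is `C`.  Every `2`-cocycle `y`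
of integral functions on `G` with finite support on every coset `x C` (a `2`-cocycle of `C`
with coefficients in `ℤ[C]`, by Shapiro's lemma) has an image in `H³(G; ℤ[G])`, the class of
the coboundary of the restriction of `y` to `A`.  We prove that this image is zero as soon as
the homology of `R` with coefficients in the reduced group algebra vanishes in the
degrees `0, 1, 2`.  If `C` has dimension at most `2` this implies that `C` has no codimension one:
`e(G, C) ≤ 1`; so every group which splits over a free group or over the fundamental group of a
closed surface has non-zero homology in a degree at most `2`, whatever the vertex groups are.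

Idea of the proof.  As `H²(C; ℓ²(C)) = 0`, the cocycle `y` is the coboundary of a real cochain
`η` with strong decay along `C`.  Modulo integers `η` is a cocycle, hence the coboundary of a
circle valued function, whose restriction `W` to `C` is a circle valued function all of
whose translates are square summably close to it.  The Banach space of the functions on `C` with
square summable differences, modulo constants and square summable functions, is the direct sum of
two closed subspaces `D₁`, `D₂`, the restrictions from both sides of the wall; this uses the
vanishing of the homology in degrees `≤ 2`, which yields projections with matrix entries in the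
reduced algebra of `C`, so that they almost commute with multiplication by `W`.  A Toeplitz
operator argument gives a function `φ` in `D₁` that is not square summable with `W φ` in `D₂`;
by vanishing in degree one its absolute value is constant up to a square summable function.  So
`W` is a quotient of circle valued functions that extend to the two sides of the wall, and `y` is a
sum of two integral cocycles which are finitely supported on one side each.  For the first case, a
chain map from `R` to `S` over `C` gives, as `S` has length at most two, `2`-cocycles `y`, one for each
basis element of `S` in degree `2`; as the images of the pairs `(A, y)` vanish, two descents show that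
the indicator function of `A` is the sum of a constant and of a function supported in finitely
many cosets of `C`.
-/

universe u v

namespace Pool.Agent.Results.MP_9f173d_gt.ThinWalls

open Z9f173d Pool.Agent.Lib.P9f173dW

/-- Let `R` be a resolution of `ℤ` by finitely generated free `ℤ[G]`-modules.  Assume one of:

* there are a thin subgroup `C`, with a resolution `S` by finitely generated free modules of length
  at most two, and a `C`-almost invariant set `A` such that neither `A` nor its complement is
  contained in finitely many cosets of `C` (that is `e(G, C) ≥ 2`; for instance `G` splits over `C`);
* `G` acts on a tree that has an edge `{v, w}` with a thin stabiliser `C` with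
  `H²(C; ℤ[C]) ≠ 0`, such that `H²(K; ℤ[K]) = 0` for the stabilisers `K` of `v` and of `w`;
* there are a thin subgroup `C`, a `C`-almost invariant set `A` and a `2`-cocycle `y` of
  integral functions with finite support on every coset `x C` such that the coboundary of
  the restriction of `y` to `A` is not the coboundary of a finitely supported cochain.

Then `H_i(C_r^*(G) ⊗ R) ≠ 0` for some `i ≤ 2`. -/
theorem result {G : Type u} [Group G] (R : FinRes G)
    (h : (∃ (C : Subgroup G) (S : FinRes C) (A : Set G),
        (∀ i, 2 < i → S.rank i = 0) ∧ Thin S ∧ AI C A ∧
        (∀ F : Finset G, ∃ x ∈ A, ∀ a ∈ F, a⁻¹ * x ∉ C) ∧
        (∀ F : Finset G, ∃ x ∉ A, ∀ a ∈ F, a⁻¹ * x ∉ C)) ∨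
      (∃ (V : Type v) (_ : MulAction G V) (T : SimpleGraph V), T.IsTree ∧
        (∀ (g : G) (v w : V), T.Adj v w → T.Adj (g • v) (g • w)) ∧
        ∃ v w : V, T.Adj v w ∧
          (∃ S : FinRes ↥(MulAction.stabilizer G v ⊓ MulAction.stabilizer G w), Thin S ∧
            Nontrivial (S.cohomology ↥(MulAction.stabilizer G v ⊓ MulAction.stabilizer G w) 2)) ∧
          ∀ x : V, x = v ∨ x = w → ∃ S : FinRes (MulAction.stabilizer G x),
            ¬ Nontrivial (S.cohomology (MulAction.stabilizer G x) 2)) ∨
      (∃ (C : Subgroup G) (S : FinRes C) (A : Set G) (y : Fin (R.rank 2) → G → ℤ),
        Thin S ∧ AI C A ∧ (∀ j x, {c : C | y j (x * c) ≠ 0}.Finite) ∧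
        cob (R.d 2) y = 0 ∧
        ¬ ∃ z : Fin (R.rank 2) → G → ℤ, (∀ j, {x | z j x ≠ 0}.Finite) ∧
          cob (R.d 2) z = cob (R.d 2) fun j => A.indicator (y j))) :
    ∃ i ≤ 2, Nontrivial (R.homology i) :=
  Pool.Agent.Lib.P9f173dE.final R h

end Pool.Agent.Results.MP_9f173d_gt.ThinWalls
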