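import Pool.Agent.Lib.P9f173dU.Main

/-!
Nonvanishing of homology with coefficients in the reduced group algebra, detected in the top
degree.

For a group with a finite free resolution of length `n` of the trivial module, consider the
condition that the differential of degree `n` is not bounded below in the `ℓ²` norm.  It implies
that some homology with coefficients in the reduced group algebra is nonzero.  The proof shows
that this condition does not depend on the resolution, passes to subgroups of finite index and
from subgroups to all groups with a resolution of length `n`, and is inherited by direct products
(the degrees adding up), and it verifies the condition for groups with a Følner cycle, for groups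
with a poly-(infinite cyclic) subgroup of Hirsch length `n`, and for nonamenable groups of
dimension two with nonnegative Euler characteristic.
-/

namespace Pool.Agent.Results.MP_9f173d_gt.TopDegree

open Pool.Agent.Lib.P9f173d Pool.Agent.Lib.P9f173dU

universe u v

/-- Let `G` be a group of the class `TopClass`, for some degree `n`, and let `R` be any finite
free resolution of the trivial module over the integral group ring of `G` (for example the
cellular chain complex of the universal cover of a finite aspherical complex with fundamental
group `G`).  Let `H = ℓ²(G)` be the Hilbert space with orthonormal basis `e` indexed by `G`, and
let `lam` be the left regular representation, so that `redAlg lam`, the closure of the image of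
`ℂ[G]` in the algebra of bounded operators, is the reduced group algebra of `G`.  Then the
homology of `R` with coefficients in the reduced group algebra of `G` is nonzero in some
degree. -/
theorem result {G : Type u} [Group G] {n : ℕ} (hG : TopClass G n) (R : FinRes G)
    {H : Type v} [NormedAddCommGroup H] [InnerProductSpace ℂ H] [CompleteSpace H]
    (e : HilbertBasis G ℂ H) (lam : G →* (H →L[ℂ] H)) (hlam : ∀ g h, lam g (e h) = e (g * h)) :
    ∃ i : ℕ, HomologyNonzero R lam i := by
  obtain ⟨C, hC⟩ := hG.gtop
  exact concl hC R hlam

end Pool.Agent.Results.MP_9f173d_gt.TopDegree
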